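import Pool.Agent.Helper190.SS.P_core
import Pool.Agent.Helper190.SS.P_exists_proj
import Pool.Agent.Helper190.SS.P_good_event
import Pool.Agent.Helper190.SS.P_smat_diag

set_option autoImplicit false

open Matrix

namespace Pool.Agent.Results.MP_252e03_pr.ConstantDistortion

/-- An outcome of the randomness: for every row `i` and every block `j` the sign of the nonzero
entry and its position inside the block. -/
abbrev Outcome (n b ζ : ℕ) : Type := Fin n → Fin ζ → Bool × Fin b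

/-- Probability of an event when all signs and all positions are independent and uniform, that is,
the uniform law on the finite product of all signs and positions. -/
noncomputable def prob {n b ζ : ℕ} (A : Set (Outcome n b ζ)) : ℝ :=
  (Nat.card A : ℝ) / (Nat.card (Outcome n b ζ) : ℝ)

/-- The SparseStack matrix with `k = b * ζ` columns; the columns are indexed by the pairs
(block, position in the block). Row `i` has in block `j` exactly one nonzero entry,
equal to plus or minus `1 / sqrt ζ`. -/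
noncomputable def sparseStack {n b ζ : ℕ} (ω : Outcome n b ζ) :
    Matrix (Fin n) (Fin ζ × Fin b) ℝ :=
  fun i c => if (ω i c.1).2 = c.2 then (if (ω i c.1).1 then (1 : ℝ) else -1) / Real.sqrt ζ else 0

/-- Euclidean norm of a real vector. -/
noncomputable def l2 {ι : Type} [Fintype ι] (x : ι → ℝ) : ℝ := Real.sqrt (∑ i, x i ^ 2)

/-- `α ‖x‖ ≤ ‖Ωᵀ x‖ ≤ β ‖x‖` for all `x ∈ V`, Euclidean norms. -/
def Embeds {n b ζ : ℕ} (ω : Outcome n b ζ) (V : Submodule ℝ (Fin n → ℝ)) (α β : ℝ) : Prop :=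
  ∀ x ∈ V, α * l2 x ≤ l2 ((sparseStack ω)ᵀ.mulVec x) ∧ l2 ((sparseStack ω)ᵀ.mulVec x) ≤ β * l2 x

/-- The SparseStack is an oblivious subspace embedding for dimension `r` with parameters `α, β`:
for every `r`-dimensional subspace `V` of `ℝ^n`, with probability at least `9/10`,
`α ‖x‖ ≤ ‖Ωᵀ x‖ ≤ β ‖x‖` for all `x ∈ V`. -/
def IsOSE (n b ζ r : ℕ) (α β : ℝ) : Prop :=
  ∀ V : Submodule ℝ (Fin n → ℝ), Module.finrank ℝ V = r →
    (9 / 10 : ℝ) ≤ prob {ω : Outcome n b ζ | Embeds ω V α β}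

/-- Sanity check: the total probability is one. -/
theorem prob_univ {n b ζ : ℕ} (hb : 1 ≤ b) : prob (Set.univ : Set (Outcome n b ζ)) = 1 := by
  have : Nonempty (Fin b) := ⟨⟨0, hb⟩⟩
  have : (Nat.card (Outcome n b ζ) : ℝ) ≠ 0 := by
    have := Nat.card_pos (α := Outcome n b ζ)
    positivity
  unfold prob
  rw [Nat.card_congr (Equiv.Set.univ _)]
  exact div_self this

open Pool.Agent.Helper190.SS in
theorem bridge {n b ζ : ℕ} (ω : Outcome n b ζ) :
    (sparseStack ω)ᵀ = Smat (1 / Real.sqrt ζ) (fun w : Fin n × Fin ζ => ω w.1 w.2) := by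
  ext k i
  obtain ⟨z, p⟩ := k
  rw [smat_entry542]
  simp only [Matrix.transpose_apply, sparseStack, sgn]
  split_ifs <;> ring

theorem l2_eq {ι : Type} [Fintype ι] (x : ι → ℝ) : l2 x = ‖WithLp.toLp 2 x‖ := by
  rw [EuclideanSpace.norm_eq]
  simp [l2]

open scoped Matrix.Norms.L2Operator in
/-- Constant-distortion case of the Nelson-Nguyen conjecture for SparseStack matrices. -/
theorem result : ∃ C α β : ℝ, 0 < α ∧ α ≤ β ∧ ∀ r n : ℕ, 2 ≤ r → r ≤ n →
    ∃ ζ b : ℕ, 1 ≤ ζ ∧ 1 ≤ b ∧ (ζ : ℝ) ≤ C * Real.log r ∧ ((b * ζ : ℕ) : ℝ) ≤ C * r ∧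
      IsOSE n b ζ r α β := by
  obtain ⟨C, hC, h⟩ := Pool.Agent.Helper190.SS.core
  refine ⟨C, Real.sqrt (1 / 2), Real.sqrt (3 / 2), by positivity,
    Real.sqrt_le_sqrt (by norm_num), ?_⟩
  intro r n hr hn
  obtain ⟨ζ, b, h1, h2, h3, h4, h5⟩ := h r n hr hn
  refine ⟨ζ, b, h1, h2, h3, h4, ?_⟩
  intro V hV
  obtain ⟨P, hPs, hPp, hPt, hPV⟩ := Pool.Agent.Helper190.SS.exists_proj n
    (V.map (WithLp.linearEquiv 2 ℝ (Fin n → ℝ)).symm.toLinearMap)
  rw [LinearEquiv.finrank_map_eq, hV] at hPt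
  have h6 := h5 P hPs hPp hPt
  have : Nonempty (Fin b) := ⟨⟨0, h2⟩⟩
  have hpos : (0 : ℝ) < (Nat.card (Outcome n b ζ) : ℝ) := by
    have := Nat.card_pos (α := Outcome n b ζ)
    exact_mod_cast this
  unfold prob
  rw [le_div_iff₀ hpos]
  have e : (Fin n × Fin ζ → Bool × Fin b) ≃ Outcome n b ζ := Equiv.curry _ _ _
  have hc : (Nat.card (Outcome n b ζ) : ℝ) = (Nat.card (Fin n × Fin ζ → Bool × Fin b) : ℝ) := by
    rw [Nat.card_congr e]
  rw [hc]
  refine h6.trans ?_
  have hinj : Nat.card {a : Fin n × Fin ζ → Bool × Fin b //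
        ‖P * ((Pool.Agent.Helper190.SS.Smat (1 / Real.sqrt ζ) a)ᵀ *
          Pool.Agent.Helper190.SS.Smat (1 / Real.sqrt ζ) a - 1) * P‖ ≤ 1 / 2} ≤
      Nat.card {ω : Outcome n b ζ | Embeds ω V (Real.sqrt (1 / 2)) (Real.sqrt (3 / 2))} := by
    refine Nat.card_le_card_of_injective
      (fun a => ⟨fun i j => a.1 (i, j), ?_⟩) ?_
    · intro x hx
      rw [bridge, l2_eq, l2_eq]
      have hx' : WithLp.toLp 2 x ∈
          V.map (WithLp.linearEquiv 2 ℝ (Fin n → ℝ)).symm.toLinearMap :=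
        ⟨x, hx, rfl⟩
      exact Pool.Agent.Helper190.SS.good_event n P hPs _ a.2 (WithLp.toLp 2 x) (hPV _ hx')
    · intro a a' haa
      apply Subtype.ext
      funext w
      have := congrArg (fun z => z.1 w.1 w.2) haa
      exact this
  exact_mod_cast hinj

end Pool.Agent.Results.MP_252e03_pr.ConstantDistortion
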